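import Pool.Agent.H543R3.PC.Final

/-!
# The Borel complexity of: `NP ∩ coNP` has a complete set
-/

namespace Pool.Agent.Results.MP_c2284b_lc.BorelComplexity

open Pool.Agent.H628R3.RO

/-- The set of oracles relative to which `NP ∩ coNP` has a many-one complete language is
`Σ⁰₄`-complete. -/
theorem result : H556R2.Sigma04Complete {A : Oracle | ∃ K : Set (List Bool), IsNP A K ∧ IsCoNP A K ∧
    ∀ L, IsNP A L → IsCoNP A L → Red A L K} :=
  Pool.Agent.H543R3.PC.npc_complete

end Pool.Agent.Results.MP_c2284b_lc.BorelComplexity
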