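import Pool.Agent.H681R2.GT.NPcoNP

/-!
# Complete languages for `NP ∩ coNP` and generic oracles

A language `C` in `NP ∩ coNP` relative to a Cohen generic oracle `X` is, as far as ordinary
languages are concerned, no better than an ordinary language of `NP ∩ coNP`: the two machines
accepting `C` and its complement are complementary relative to all oracles extending a finite table
`σ ⊆ X`, so acceptance relative to the finite tables extending `σ` is an ordinary language `C'` of
`NP ∩ coNP`; and if an ordinary language reduces to `C` relative to `X`, then this is forced by a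
finite table `τ ⊆ X`, and replacing `X` by `σ ∪ τ` gives an ordinary reduction to `C'`.
-/

set_option autoImplicit false

namespace Pool.Agent.Results.MP_c2284b_lc.GenericTransfer

open Pool.Agent.NPC Pool.Agent.H681R2.GA Pool.Agent.H681R2.GT

/-- (1) For every countable set `F` of languages, for comeager many oracles `X`: for every `C` in
`NP^X ∩ coNP^X` there is `C'` in `NP ∩ coNP` such that every `L ∈ F` which is many-one reducible to
`C` in polynomial time relative to `X` is many-one reducible to `C'` in polynomial time.
(2) For comeager many oracles `X`: some language in `NP^X ∩ coNP^X` is hard for `NP ∩ coNP` under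
reductions relative to `X` if and only if `NP ∩ coNP` has a complete language; in particular if
`NP^X ∩ coNP^X` has a complete language, then so has `NP ∩ coNP`. -/
theorem result :
    (∀ F : Set (Set (List Bool)), F.Countable → ∀ᶠ X in residual (List Bool → Bool),
      ∀ C, InNPcoNPRel X C → ∃ C', InNPcoNP C' ∧ ∀ L ∈ F, ReducesRel X L C → Reduces L C') ∧
    (∀ᶠ X in residual (List Bool → Bool),
      ((∃ C, InNPcoNPRel X C ∧ ∀ L, InNPcoNP L → ReducesRel X L C) ↔
        ∃ C, InNPcoNP C ∧ ∀ L, InNPcoNP L → Reduces L C) ∧
      ((∃ C, InNPcoNPRel X C ∧ ∀ L, InNPcoNPRel X L → ReducesRel X L C) →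
        ∃ C, InNPcoNP C ∧ ∀ L, InNPcoNP L → Reduces L C)) :=
  ⟨transfer_NPcoNP, main_NPcoNP⟩

end Pool.Agent.Results.MP_c2284b_lc.GenericTransfer
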