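import Pool.Agent.H673R3.UC.Z1

set_option autoImplicit false

/-!
# Relative to a random oracle, no language in `NP ∩ coNP` is hard for `UP ∩ coUP`
-/

namespace Pool.Agent.Results.MP_c2284b_lc.RandomOracleUP

open Pool.Agent.H628R3.RO

/-- For almost every oracle `A`: for every language `K` in `NP ∩ coNP` relative to `A` there is a
language `L` in `UP ∩ coUP` relative to `A` that does not reduce to `K`, even if the reduction may
use the oracle. -/
theorem result : ∀ᵐ A ∂randomOracle, ∀ K : Set (List Bool), IsNP A K → IsCoNP A K →
    ∃ L : Set (List Bool), IsUP A L ∧ IsUP A Lᶜ ∧ ¬ Red A L K :=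
  Pool.Agent.H673R3.UC.main_N

end Pool.Agent.Results.MP_c2284b_lc.RandomOracleUP
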